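import Mathlib

/-!
# A rotor mechanism for which every initial rotor configuration is transient
-/

set_option autoImplicit false

namespace Pool.Agent.Results.MP_c5a801_co.AllTransient

/-- A rotor mechanism: a cyclic ordering of the neighbours of every vertex, given by a permutation
`next v` of the neighbour set which consists of a single cycle. -/
structure Mechanism {V : Type*} (G : SimpleGraph V) where
  next : ∀ v, Equiv.Perm (G.neighborSet v)
  cyclic : ∀ v (a b : G.neighborSet v), ∃ n : ℕ, ((next v) ^ n) a = b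

/-- A rotor configuration assigns to every vertex one of its neighbours. -/
abbrev Config {V : Type*} (G : SimpleGraph V) : Type _ := ∀ v, G.neighborSet v

open Classical in
/-- One step of the rotor walk: the rotor at the current vertex is advanced and the particle moves
to the neighbour to which the rotor now points. -/
noncomputable def step {V : Type*} {G : SimpleGraph V} (M : Mechanism G) (s : V × Config G) :
    V × Config G :=
  ((M.next s.1 (s.2 s.1) : V), Function.update s.2 s.1 (M.next s.1 (s.2 s.1)))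

/-- The rotor walk with start vertex `x` and initial configuration `r`. -/
noncomputable def walk {V : Type*} {G : SimpleGraph V} (M : Mechanism G) (x : V) (r : Config G) :
    ℕ → V × Config G
  | 0 => (x, r)
  | t + 1 => step M (walk M x r t)

/-- The initial configuration `r` is transient: from every start vertex, every vertex is visited
only finitely often. -/
def Transient {V : Type*} {G : SimpleGraph V} (M : Mechanism G) (r : Config G) : Prop :=
  ∀ x v : V, {t | (walk M x r t).1 = v}.Finite

lemma step_self {V : Type*} {G : SimpleGraph V} (M : Mechanism G) (s : V × Config G) :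
    (step M s).2 s.1 = M.next s.1 (s.2 s.1) := by
  classical
  simp [step]

lemma step_ne {V : Type*} {G : SimpleGraph V} (M : Mechanism G) (s : V × Config G) {v : V}
    (h : v ≠ s.1) : (step M s).2 v = s.2 v := by
  classical
  simp [step, h]

/-! ### Visits propagate to neighbours -/

section general

variable {V : Type*} {G : SimpleGraph V} (M : Mechanism G) (x : V) (r : Config G)

lemma rotor_unchanged (v : V) (N k : ℕ) (h : ∀ t, N ≤ t → t < N + k → (walk M x r t).1 ≠ v) :
    (walk M x r (N + k)).2 v = (walk M x r N).2 v := by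
  induction k with
  | zero => rfl
  | succ k ih =>
    have h1 := ih fun t ht ht' => h t ht (by omega)
    have h2 := h (N + k) (by omega) (by omega)
    rw [← h1, ← add_assoc]
    exact step_ne M _ h2.symm

lemma visit_pow (v : V) (hv : ∀ N, ∃ t, N ≤ t ∧ (walk M x r t).1 = v) (m : ℕ) :
    ∀ N, ∃ t, N ≤ t ∧ (walk M x r t).1 =
      (((M.next v) ^ (m + 1)) ((walk M x r N).2 v) : G.neighborSet v) := by
  classical
  induction m with
  | zero =>
    intro N
    have hex : ∃ k, (walk M x r (N + k)).1 = v := by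
      obtain ⟨t, ht, ht'⟩ := hv N
      exact ⟨t - N, by rwa [Nat.add_sub_cancel' ht]⟩
    have hmin := Nat.find_spec hex
    have hmin' := fun m hm => Nat.find_min (m := m) hex hm
    generalize Nat.find hex = k₀ at hmin hmin'
    have hun := rotor_unchanged M x r v N k₀ (fun t ht ht' h => by
      have := hmin' (t - N) (by omega)
      rw [Nat.add_sub_cancel' ht] at this
      exact this h)
    refine ⟨N + k₀ + 1, by omega, ?_⟩
    show (step M (walk M x r (N + k₀))).1 = _
    rw [zero_add, pow_one, ← hun]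
    generalize (walk M x r (N + k₀)) = s at hmin
    subst hmin
    rfl
  | succ m ih =>
    intro N
    have hex : ∃ k, (walk M x r (N + k)).1 = v := by
      obtain ⟨t, ht, ht'⟩ := hv N
      exact ⟨t - N, by rwa [Nat.add_sub_cancel' ht]⟩
    have hmin := Nat.find_spec hex
    have hmin' := fun m hm => Nat.find_min (m := m) hex hm
    generalize Nat.find hex = k₀ at hmin hmin'
    have hun := rotor_unchanged M x r v N k₀ (fun t ht ht' h => by
      have := hmin' (t - N) (by omega)
      rw [Nat.add_sub_cancel' ht] at this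
      exact this h)
    obtain ⟨t, ht, ht'⟩ := ih (N + k₀ + 1)
    refine ⟨t, by omega, ?_⟩
    rw [ht']
    have h1 : (walk M x r (N + k₀ + 1)).2 v = M.next v ((walk M x r N).2 v) := by
      show (step M (walk M x r (N + k₀))).2 v = _
      rw [← hun]
      generalize (walk M x r (N + k₀)) = s at hmin
      subst hmin
      exact step_self M s
    rw [h1, ← Equiv.Perm.mul_apply, ← pow_succ]

lemma visit_adj (v w : V) (hvw : G.Adj v w) (hv : ∀ N, ∃ t, N ≤ t ∧ (walk M x r t).1 = v) :
    ∀ N, ∃ t, N ≤ t ∧ (walk M x r t).1 = w := by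
  intro N
  obtain ⟨m, hm⟩ := M.cyclic v (M.next v ((walk M x r N).2 v)) ⟨w, hvw⟩
  obtain ⟨t, ht, ht'⟩ := visit_pow M x r v hv m N
  refine ⟨t, ht, ?_⟩
  rw [ht', pow_succ, Equiv.Perm.mul_apply, hm]

lemma visit_all (hG : G.Preconnected) (v w : V)
    (hv : ∀ N, ∃ t, N ≤ t ∧ (walk M x r t).1 = v) :
    ∀ N, ∃ t, N ≤ t ∧ (walk M x r t).1 = w := by
  obtain ⟨p⟩ := hG v w
  induction p with
  | nil => exact hv
  | cons h _ ih => exact ih (visit_adj M x r _ _ h hv)

end general

/-! ### The graph -/

/-- The vertices: level `n` consists of `2 ^ n` vertices. -/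
abbrev Vtx : Type := Σ n : ℕ, Fin (2 ^ n)

/-- Two vertices are adjacent iff their levels differ by one. -/
def levelGraph : SimpleGraph Vtx where
  Adj v w := v.1 + 1 = w.1 ∨ w.1 + 1 = v.1
  symm := ⟨fun _ _ h => h.symm⟩
  loopless := ⟨fun v h => by rcases h with h | h <;> omega⟩

lemma vtx_ext {v w : Vtx} (h1 : v.1 = w.1) (h2 : (v.2 : ℕ) = w.2) : v = w := by
  obtain ⟨n, i⟩ := v
  obtain ⟨m, j⟩ := w
  simp only at h1 h2
  subst h1
  rw [Fin.ext h2]

/-- Number of neighbours of a vertex of level `n`. -/
def deg : ℕ → ℕ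
  | 0 => 2
  | n + 1 => 5 * 2 ^ n

lemma deg_pos (n : ℕ) : 0 < deg n := by
  cases n <;> simp [deg]

instance (n : ℕ) : NeZero (deg n) := ⟨(deg_pos n).ne'⟩

/-- Position of the vertex with level `l` and index `i` in the cyclic order at a vertex of
level `n`. -/
def pos : ℕ → ℕ → ℕ → ℕ
  | 0, _, i => i
  | n + 1, l, i => if l = n then 5 * i else 5 * (i / 4) + 1 + i % 4

lemma pos_lt (n : ℕ) (w : Vtx) (h : n + 1 = w.1 ∨ w.1 + 1 = n) : pos n w.1 w.2 < deg n := by
  obtain ⟨l, i, hi⟩ := w
  simp only at h ⊢
  cases n with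
  | zero =>
    obtain rfl : l = 1 := by omega
    simpa [pos, deg] using hi
  | succ n =>
    simp only [pos, deg]
    split_ifs with hl
    · subst hl; omega
    · obtain rfl : l = n + 2 := by omega
      have : 2 ^ (n + 2) = 4 * 2 ^ n := by ring
      omega

/-- The neighbour at a given position. -/
def unpos : (n : ℕ) → Fin (deg n) → Vtx
  | 0, p => ⟨1, ⟨p, by have := p.2; simpa [deg] using this⟩⟩
  | n + 1, p => if h : (p : ℕ) % 5 = 0 then ⟨n, ⟨p / 5, by
      have := p.2; simp only [deg] at this; omega⟩⟩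
    else ⟨n + 2, ⟨4 * (p / 5) + (p % 5 - 1), by
      have := p.2; simp only [deg] at this
      have : 2 ^ (n + 2) = 4 * 2 ^ n := by ring
      omega⟩⟩

lemma unpos_adj (n : ℕ) (p : Fin (deg n)) : n + 1 = (unpos n p).1 ∨ (unpos n p).1 + 1 = n := by
  cases n with
  | zero => simp [unpos]
  | succ n =>
    simp only [unpos]
    split_ifs <;> simp

lemma pos_unpos (n : ℕ) (p : Fin (deg n)) : pos n (unpos n p).1 (unpos n p).2 = p := by
  cases n with
  | zero => rfl
  | succ n =>
    by_cases h : (p : ℕ) % 5 = 0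
    · have hu : unpos (n + 1) p = ⟨n, ⟨p / 5, by
          have := p.2; simp only [deg] at this; omega⟩⟩ := by
        simp only [unpos]
        rw [dif_pos h]
      rw [hu]
      simp only [pos, if_true]
      omega
    · have hu : unpos (n + 1) p = ⟨n + 2, ⟨4 * (p / 5) + (p % 5 - 1), by
          have := p.2; simp only [deg] at this
          have : 2 ^ (n + 2) = 4 * 2 ^ n := by ring
          omega⟩⟩ := by
        simp only [unpos]
        rw [dif_neg h]
      rw [hu]
      simp only [pos]
      rw [if_neg (by omega)]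
      omega

lemma unpos_pos (n : ℕ) (w : Vtx) (h : n + 1 = w.1 ∨ w.1 + 1 = n) :
    unpos n ⟨pos n w.1 w.2, pos_lt n w h⟩ = w := by
  obtain ⟨l, i, hi⟩ := w
  simp only at h ⊢
  cases n with
  | zero =>
    obtain rfl : l = 1 := by omega
    rfl
  | succ n =>
    by_cases hl : l = n
    · subst hl
      have hp : pos (l + 1) l i = 5 * i := by simp [pos]
      simp only [unpos, hp]
      rw [dif_pos (by omega)]
      exact vtx_ext rfl (by simp)
    · obtain rfl : l = n + 2 := by omega
      have hp : pos (n + 1) (n + 2) i = 5 * (i / 4) + 1 + i % 4 := by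
        simp [pos]
      simp only [unpos, hp]
      rw [dif_neg (by omega)]
      exact vtx_ext rfl (by simp only; omega)

/-- The neighbours of a vertex, listed by position. -/
def nbEquiv (v : Vtx) : levelGraph.neighborSet v ≃ Fin (deg v.1) where
  toFun w := ⟨pos v.1 w.1.1 w.1.2, pos_lt v.1 w.1 w.2⟩
  invFun p := ⟨unpos v.1 p, unpos_adj v.1 p⟩
  left_inv w := Subtype.ext (unpos_pos v.1 w.1 w.2)
  right_inv p := Fin.ext (pos_unpos v.1 p)

/-- The mechanism: one step down is followed by four steps up. -/
def mech : Mechanism levelGraph where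
  next v := ((nbEquiv v).trans (Equiv.addRight (1 : Fin (deg v.1)))).trans (nbEquiv v).symm
  cyclic v a b := by
    have key : ∀ n : ℕ, ((nbEquiv v
        (((((nbEquiv v).trans (Equiv.addRight (1 : Fin (deg v.1)))).trans (nbEquiv v).symm) ^ n) a)
          : Fin (deg v.1)) : ℕ) = ((nbEquiv v a : ℕ) + n) % deg v.1 := by
      intro n
      induction n with
      | zero =>
        rw [pow_zero, Equiv.Perm.one_apply, add_zero, Nat.mod_eq_of_lt (nbEquiv v a).2]
      | succ n ih =>
        rw [pow_succ', Equiv.Perm.mul_apply]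
        simp only [Equiv.trans_apply, Equiv.coe_addRight, Equiv.apply_symm_apply]
        rw [Fin.val_add, Fin.val_one', ih, ← Nat.add_mod, add_assoc]
    refine ⟨deg v.1 + nbEquiv v b - nbEquiv v a, ?_⟩
    apply (nbEquiv v).injective
    apply Fin.ext
    rw [key]
    have h1 := (nbEquiv v a).2
    have h2 := (nbEquiv v b).2
    rw [show (nbEquiv v a : ℕ) + (deg v.1 + nbEquiv v b - nbEquiv v a) =
      nbEquiv v b + deg v.1 by omega, Nat.add_mod_right, Nat.mod_eq_of_lt h2]

/-! ### The potential -/

/-- Potential of the particle. -/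
noncomputable def h (v : Vtx) : ℝ := (1 / 4) ^ v.1

/-- Potential of the rotor at `v`. -/
noncomputable def rot (v : Vtx) (w : levelGraph.neighborSet v) : ℝ :=
  if v.1 = 0 then 0 else 3 / 4 * (1 / 4) ^ v.1 * ((nbEquiv v w : ℕ) % 5 : ℕ)

lemma rot_nonneg (v : Vtx) (w : levelGraph.neighborSet v) : 0 ≤ rot v w := by
  unfold rot
  split_ifs
  · exact le_rfl
  · positivity

lemma rot_le (v : Vtx) (w : levelGraph.neighborSet v) : rot v w ≤ 3 * (1 / 4) ^ v.1 := by
  unfold rot
  split_ifs
  · positivity
  · have h1 : (((nbEquiv v w : ℕ) % 5 : ℕ) : ℝ) ≤ 4 := by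
      have : (nbEquiv v w : ℕ) % 5 ≤ 4 := by omega
      exact_mod_cast this
    have h2 : (0 : ℝ) ≤ (1 / 4) ^ v.1 := by positivity
    nlinarith

lemma rot_step (v : Vtx) (w : levelGraph.neighborSet v) :
    h (mech.next v w : Vtx) + rot v (mech.next v w) =
      h v + rot v w - if v.1 = 0 then 3 / 4 else 0 := by
  obtain ⟨n, i⟩ := v
  set p := nbEquiv ⟨n, i⟩ w with hp
  have hq : nbEquiv ⟨n, i⟩ (mech.next ⟨n, i⟩ w) = p + 1 := by
    simp [mech, hp]
  have hnext : ((mech.next ⟨n, i⟩ w : levelGraph.neighborSet ⟨n, i⟩) : Vtx) =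
      unpos n (p + 1) := by
    rw [← hq]
    exact (unpos_pos n _ (mech.next ⟨n, i⟩ w).2).symm
  cases n with
  | zero =>
    have h1 : rot ⟨0, i⟩ (mech.next ⟨0, i⟩ w) = 0 := by simp [rot]
    have h2 : rot ⟨0, i⟩ w = 0 := by simp [rot]
    rw [h1, h2, hnext]
    simp only [unpos, h]
    norm_num
  | succ n =>
    have hval : ((p + 1 : Fin (deg (n + 1))) : ℕ) % 5 = ((p : ℕ) + 1) % 5 := by
      rw [Fin.val_add]
      have h5 : (1 : ℕ) < deg (n + 1) := by
        have : 0 < 2 ^ n := by positivity
        simp only [deg]; omega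
      have h1 : ((1 : Fin (deg (n + 1))) : ℕ) = 1 := by
        rw [Fin.val_one', Nat.mod_eq_of_lt h5]
      rw [h1]
      simp only [deg]
      exact Nat.mod_mul_right_mod _ _ _
    have h1 : rot ⟨n + 1, i⟩ (mech.next ⟨n + 1, i⟩ w) =
        3 / 4 * (1 / 4) ^ (n + 1) * (((p : ℕ) + 1) % 5 : ℕ) := by
      simp only [rot, hq]
      rw [if_neg (by omega), hval]
    have h2 : rot ⟨n + 1, i⟩ w = 3 / 4 * (1 / 4) ^ (n + 1) * ((p : ℕ) % 5 : ℕ) := by
      simp only [rot]
      rw [if_neg (by omega)]
    rw [h1, h2, hnext]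
    simp only [unpos, h]
    rw [if_neg (by omega)]
    by_cases h0 : ((p + 1 : Fin (deg (n + 1))) : ℕ) % 5 = 0
    · rw [dif_pos h0]
      rw [hval] at h0
      have h4 : (p : ℕ) % 5 = 4 := by omega
      rw [h0, h4]
      simp only
      push_cast
      ring
    · rw [dif_neg h0]
      rw [hval] at h0
      have h4 : ((p : ℕ) + 1) % 5 = (p : ℕ) % 5 + 1 := by omega
      rw [h4]
      simp only
      push_cast
      ring

/-- The ball of vertices of level less than `N`. -/
def B (N : ℕ) : Finset Vtx := (Finset.range N).sigma fun _ => Finset.univ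

lemma mem_B {N : ℕ} {v : Vtx} : v ∈ B N ↔ v.1 < N := by
  simp [B]

/-- Total potential. -/
noncomputable def Phi (N : ℕ) (s : Vtx × Config levelGraph) : ℝ :=
  h s.1 + ∑ v ∈ B N, rot v (s.2 v)

lemma Phi_nonneg (N : ℕ) (s : Vtx × Config levelGraph) : 0 ≤ Phi N s := by
  unfold Phi
  have : 0 ≤ h s.1 := by unfold h; positivity
  have := Finset.sum_nonneg fun v (_ : v ∈ B N) => rot_nonneg v (s.2 v)
  linarith

lemma Phi_le (N : ℕ) (s : Vtx × Config levelGraph) : Phi N s ≤ 7 := by
  unfold Phi
  have h1 : h s.1 ≤ 1 := by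
    unfold h
    exact pow_le_one₀ (by norm_num) (by norm_num)
  have h2 : ∑ v ∈ B N, rot v (s.2 v) ≤ ∑ n ∈ Finset.range N, 3 * (1 / 2 : ℝ) ^ n := by
    calc ∑ v ∈ B N, rot v (s.2 v) ≤ ∑ v ∈ B N, 3 * (1 / 4 : ℝ) ^ v.1 :=
          Finset.sum_le_sum fun v _ => rot_le v _
      _ = ∑ n ∈ Finset.range N, ∑ _i : Fin (2 ^ n), 3 * (1 / 4 : ℝ) ^ n := by
          unfold B
          rw [Finset.sum_sigma]
      _ = ∑ n ∈ Finset.range N, 3 * (1 / 2 : ℝ) ^ n := by
          refine Finset.sum_congr rfl fun n _ => ?_
          rw [Finset.sum_const, Finset.card_univ, Fintype.card_fin, nsmul_eq_mul]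
          push_cast
          have : (1 / 2 : ℝ) ^ n = 2 ^ n * (1 / 4) ^ n := by
            rw [← mul_pow]; norm_num
          rw [this]; ring
  have h3 : ∑ n ∈ Finset.range N, 3 * (1 / 2 : ℝ) ^ n ≤ 6 := by
    rw [← Finset.mul_sum, geom_sum_eq (by norm_num)]
    have : (0 : ℝ) < (1 / 2) ^ N := by positivity
    norm_num
    linarith
  linarith

lemma Phi_step (N : ℕ) (s : Vtx × Config levelGraph) (hs : s.1.1 < N) :
    Phi N (step mech s) = Phi N s - if s.1.1 = 0 then 3 / 4 else 0 := by
  classical
  have hmem : s.1 ∈ B N := mem_B.2 hs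
  unfold Phi
  rw [← Finset.add_sum_erase _ _ hmem, ← Finset.add_sum_erase (B N) (fun v => rot v (s.2 v)) hmem]
  have h1 : ∑ v ∈ (B N).erase s.1, rot v ((step mech s).2 v) =
      ∑ v ∈ (B N).erase s.1, rot v (s.2 v) := by
    refine Finset.sum_congr rfl fun v hv => ?_
    rw [step_ne mech s (Finset.ne_of_mem_erase hv)]
  have h2 : (step mech s).2 s.1 = mech.next s.1 (s.2 s.1) := step_self mech s
  have h3 : (step mech s).1 = (mech.next s.1 (s.2 s.1) : Vtx) := rfl
  rw [h1, h2, h3]
  have := rot_step s.1 (s.2 s.1)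
  linarith

lemma level_le (x : Vtx) (r : Config levelGraph) (t : ℕ) : (walk mech x r t).1.1 ≤ x.1 + t := by
  induction t with
  | zero => exact le_rfl
  | succ t ih =>
    have : levelGraph.Adj (walk mech x r t).1 (walk mech x r (t + 1)).1 :=
      (mech.next (walk mech x r t).1 ((walk mech x r t).2 (walk mech x r t).1)).2
    rcases this with h | h <;> omega

lemma Phi_walk (x : Vtx) (r : Config levelGraph) (N t : ℕ) (hN : x.1 + t ≤ N) :
    Phi N (walk mech x r t) = Phi N (x, r) -
      3 / 4 * ((Finset.range t).filter fun s => (walk mech x r s).1.1 = 0).card := by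
  induction t with
  | zero => simp [walk]
  | succ t ih =>
    have h1 : Phi N (walk mech x r (t + 1)) = _ :=
      Phi_step N (walk mech x r t) (by have := level_le x r t; omega)
    rw [h1, ih (by omega), Finset.range_add_one, Finset.filter_insert]
    split_ifs
    · rw [Finset.card_insert_of_notMem (by simp)]
      push_cast
      ring
    · ring

lemma root_finite (x : Vtx) (r : Config levelGraph) :
    {t | (walk mech x r t).1.1 = 0}.Finite := by
  by_contra hinf
  have hinf : {t | (walk mech x r t).1.1 = 0}.Infinite := hinf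
  obtain ⟨F, hF, hcard⟩ := hinf.exists_subset_card_eq 10
  obtain ⟨T, hT⟩ := F.exists_nat_subset_range
  have h1 := Phi_walk x r (x.1 + T) T le_rfl
  have h2 := Phi_nonneg (x.1 + T) (walk mech x r T)
  have h3 := Phi_le (x.1 + T) (x, r)
  have h4 : F ⊆ (Finset.range T).filter fun s => (walk mech x r s).1.1 = 0 := by
    intro t ht
    exact Finset.mem_filter.2 ⟨hT ht, hF ht⟩
  have h5 := Finset.card_le_card h4
  rw [hcard] at h5
  have h6 : (10 : ℝ) ≤ ((Finset.range T).filter fun s => (walk mech x r s).1.1 = 0).card := by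
    exact_mod_cast h5
  linarith

lemma adj_of_succ {v w : Vtx} (h : v.1 + 1 = w.1) : levelGraph.Adj v w := Or.inl h

lemma reach_root (v : Vtx) : levelGraph.Reachable v ⟨0, 0⟩ := by
  obtain ⟨n, i⟩ := v
  induction n with
  | zero =>
    have : (⟨0, i⟩ : Vtx) = ⟨0, 0⟩ := vtx_ext rfl (by have := i.2; simp only [pow_zero] at this; simp only [Fin.val_zero]; omega)
    rw [this]
  | succ n ih =>
    have h0 : 0 < 2 ^ n := by positivity
    exact (adj_of_succ (v := ⟨n, ⟨0, h0⟩⟩) (w := ⟨n + 1, i⟩) rfl).symm.reachable.trans (ih _)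

lemma connected : levelGraph.Connected :=
  ⟨fun v w => (reach_root v).trans (reach_root w).symm⟩

/-- There are an infinite, connected, locally finite graph and a rotor mechanism on it for which
every initial rotor configuration is transient. -/
theorem result : ∃ (V : Type) (G : SimpleGraph V) (M : Mechanism G),
    Infinite V ∧ G.Connected ∧ (∀ v, (G.neighborSet v).Finite) ∧
      ∀ r : Config G, Transient M r := by
  refine ⟨Vtx, levelGraph, mech, ?_, connected, fun v => ?_, fun r x v => ?_⟩
  · exact Infinite.of_injective (fun n : ℕ => (⟨n, ⟨0, by positivity⟩⟩ : Vtx))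
      (fun n m h => congrArg Sigma.fst h)
  · have : Finite (levelGraph.neighborSet v) := Finite.of_equiv _ (nbEquiv v).symm
    exact Set.toFinite _
  · by_contra hinf
    have hinf : {t | (walk mech x r t).1 = v}.Infinite := hinf
    have h1 : ∀ N, ∃ t, N ≤ t ∧ (walk mech x r t).1 = v := by
      intro N
      obtain ⟨t, ht, ht'⟩ := hinf.exists_gt N
      exact ⟨t, ht'.le, ht⟩
    have h2 := visit_all mech x r connected.preconnected v ⟨0, 0⟩ h1
    have h3 : {t | (walk mech x r t).1.1 = 0}.Infinite := by
      rw [Set.infinite_iff_exists_gt]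
      intro N
      obtain ⟨t, ht, ht'⟩ := h2 (N + 1)
      exact ⟨t, by simp [ht'], by omega⟩
    exact h3 (root_finite x r)

end Pool.Agent.Results.MP_c5a801_co.AllTransient
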